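import Pool.Agent.W_0c5e58_h33.Defs
import Pool.Agent.W_0c5e58_h61.GSeq

/-!
# Compactness, part A: the defining function of the body, limits of families
-/

open MeasureTheory Metric Set Filter
open scoped Topology ENNReal

namespace Pool.Cyl

open Pool.TC

/-- the body is `{Fk s ≤ 0}` -/
noncomputable def Fk (s : ℝ) (x : E2) : ℝ :=
  max (-(1 / 32) - x 1) (max (|x 0 - 96 * x 1| - 3 / 2) (x 1 - kap s (x 0)))

theorem mem_K_iff {s : ℝ} {x : E2} : x ∈ K s ↔ Fk s x ≤ 0 := by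
  unfold Fk K
  rw [max_le_iff, max_le_iff]
  simp only [mem_ofPred_eq, sub_nonpos]

theorem Fk_neg_iff {s : ℝ} {x : E2} :
    Fk s x < 0 ↔ -(1 / 32) < x 1 ∧ |x 0 - 96 * x 1| < 3 / 2 ∧ x 1 < kap s (x 0) := by
  unfold Fk
  rw [max_lt_iff, max_lt_iff]
  simp only [sub_neg]

theorem Fk_cont : Continuous (fun z : ℝ × E2 => Fk z.1 z.2) := by
  unfold Fk kap
  have h0 : Continuous (fun z : ℝ × E2 => z.2 0) :=
    (EuclideanSpace.proj (𝕜 := ℝ) (0 : Fin 2)).continuous.comp continuous_snd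
  have h1 : Continuous (fun z : ℝ × E2 => z.2 1) :=
    (EuclideanSpace.proj (𝕜 := ℝ) (1 : Fin 2)).continuous.comp continuous_snd
  fun_prop

theorem mem_interior_of_neg {s : ℝ} {x : E2} (h : Fk s x < 0) : x ∈ interior (K s) := by
  rw [mem_interior]
  refine ⟨{y | Fk s y < 0}, fun y hy => mem_K_iff.2 (le_of_lt hy), ?_, h⟩
  have : Continuous (fun y : E2 => Fk s y) := Fk_cont.comp (Continuous.prodMk_right s)
  exact isOpen_lt this continuous_const

theorem interior_preimage_of_neg {s : ℝ} {g : E2 ≃ᵢ E2} {x : E2} (h : Fk s (g.symm x) < 0) :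
    x ∈ interior (g '' K s) := by
  have h1 : g '' interior (K s) = interior (g '' K s) := g.toHomeomorph.image_interior (K s)
  rw [← h1]
  exact ⟨g.symm x, mem_interior_of_neg h, g.apply_symm_apply x⟩

theorem pt_norm {p r : ℝ} : ‖pt p r‖ ≤ |p| + |r| := by
  rw [EuclideanSpace.norm_eq, Real.sqrt_le_left (by positivity)]
  rw [Fin.sum_univ_two]
  simp only [Real.norm_eq_abs, sq_abs, pt_zero, pt_one]
  nlinarith [sq_abs p, sq_abs r, abs_nonneg p, abs_nonneg r]

theorem eq_pt (x : E2) : x = pt (x 0) (x 1) := by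
  ext i
  fin_cases i <;> rfl

theorem K_norm {s : ℝ} (hs : 0 ≤ s) (hs1 : s ≤ 1 / 100) {x : E2} (hx : x ∈ K s) : ‖x‖ ≤ 5 := by
  obtain ⟨h1, h2, h3⟩ := hx
  rw [abs_le] at h2
  have h4 : kap s (x 0) ≤ s := by
    unfold kap
    nlinarith [min_le_left 1 (3 / 2 - |x 0|)]
  rw [eq_pt x]
  refine pt_norm.trans ?_
  have h5 : |x 1| ≤ 1 / 32 := by
    rw [abs_le]
    constructor <;> linarith
  have h6 : |x 0| ≤ 9 / 2 := by
    rw [abs_le] at h5 ⊢
    constructor <;> linarith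
  linarith

theorem zero_mem_K {s : ℝ} (hs : 0 ≤ s) : (pt 0 0) ∈ K s := by
  refine ⟨by simp, by norm_num, ?_⟩
  simp only [pt_one, pt_zero, kap, abs_zero]
  norm_num
  exact hs

/-- a small ball strictly inside the body -/
theorem core {s : ℝ} (hs : 0 ≤ s) (hs1 : s ≤ 1 / 100) {x : E2} (hx : x ∈ ball (pt (-(3 / 2)) (-(1 / 64))) (1 / 100)) :
    Fk s x < 0 := by
  have h0 : |x 0 + 3 / 2| < 1 / 100 := by
    rw [mem_ball, dist_eq_norm] at hx
    have := (PiLp.norm_apply_le (x - pt (-(3 / 2)) (-(1 / 64))) 0).trans_lt hx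
    simpa [pt] using this
  have h1 : |x 1 + 1 / 64| < 1 / 100 := by
    rw [mem_ball, dist_eq_norm] at hx
    have := (PiLp.norm_apply_le (x - pt (-(3 / 2)) (-(1 / 64))) 1).trans_lt hx
    simpa [pt] using this
  rw [abs_lt] at h0 h1
  rw [Fk_neg_iff]
  refine ⟨by linarith, ?_, ?_⟩
  · rw [abs_lt]
    constructor <;> linarith
  · have h2 : |x 0| ≤ 3 / 2 + 1 / 100 := by
      rw [abs_le]
      constructor <;> linarith
    unfold kap
    rcases min_cases 1 (3 / 2 - |x 0|) with ⟨h, _⟩ | ⟨h, _⟩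
    · rw [h]
      linarith
    · rw [h]
      nlinarith

end Pool.Cyl
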