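import Pool.Agent.W_0c5e58_q61.CptA

/-!
# Compactness, part B: a bounded number of bodies, limits along an ultrafilter
-/

open MeasureTheory Metric Set Filter
open scoped Topology ENNReal

namespace Pool.Cyl

open Pool.TC

/-- Structure of exact tilings (1.6 of the text): the bodies are `{x | ψ j x ∈ K 0}`. -/
def Str : Prop := ∀ (m : ℕ) (ψ : Fin m → E2 ≃ᵢ E2),
  (∀ x ∈ ball (0 : E2) 2, ∃ i, ψ i x ∈ K 0) →
  (∀ i j, i ≠ j → ∀ x, Fk 0 (ψ i x) < 0 → Fk 0 (ψ j x) < 0 → False) →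
  ∀ i0, (∀ x, ψ i0 x = x) → ∀ j : Fin 3 → Fin m, Function.Injective j → (∀ a, j a ≠ i0) →
  (∀ a, ∃ p, |p| ≤ 5 / 4 ∧ ψ (j a) (pt p 0) ∈ K 0) → False

/-- a norm preserving linear map and a translation are an isometry -/
theorem exists_isom {L : E2 →L[ℝ] E2} (hL : ∀ x, ‖L x‖ = ‖x‖) (t : E2) :
    ∃ ψ : E2 ≃ᵢ E2, ∀ x, ψ x = L x + t := by
  have e : (⟨L.toLinearMap, hL⟩ : E2 →ₗᵢ[ℝ] E2) = (⟨L.toLinearMap, hL⟩ : E2 →ₗᵢ[ℝ] E2) := rfl
  let A : E2 ≃ₗᵢ[ℝ] E2 := (⟨L.toLinearMap, hL⟩ : E2 →ₗᵢ[ℝ] E2).toLinearIsometryEquiv rfl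
  refine ⟨A.toIsometryEquiv.trans (IsometryEquiv.addRight t), fun x => rfl⟩

theorem isom_affine2 (g : E2 ≃ᵢ E2) :
    ∃ (L : E2 →L[ℝ] E2) (t : E2), (∀ x, ‖L x‖ = ‖x‖) ∧ ∀ x, g x = L x + t := by
  set A := g.toRealAffineIsometryEquiv with hA
  refine ⟨(A.linearIsometryEquiv.toContinuousLinearEquiv : E2 →L[ℝ] E2), g 0, fun x => ?_,
    fun x => ?_⟩
  · exact A.linearIsometryEquiv.norm_map x
  · have h1 := A.map_vadd (0 : E2) x
    have h2 : ∀ z, A z = g z := fun z => rfl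
    rw [h2, h2, vadd_eq_add, vadd_eq_add, add_zero] at h1
    exact h1

/-- the joint evaluation map -/
theorem app_cont : Continuous (fun z : (ℝ × (E2 →L[ℝ] E2) × E2) × E2 =>
    Fk z.1.1 (z.1.2.1 z.2 + z.1.2.2)) := by
  have h1 : Continuous (fun z : (ℝ × (E2 →L[ℝ] E2) × E2) × E2 => z.1.2.1 z.2 + z.1.2.2) := by
    have : Continuous (fun z : (ℝ × (E2 →L[ℝ] E2) × E2) × E2 => z.1.2.1 z.2) :=
      (continuous_fst.comp (continuous_snd.comp continuous_fst)).clm_apply continuous_snd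
    exact this.add (continuous_snd.comp (continuous_snd.comp continuous_fst))
  exact Fk_cont.comp ((continuous_fst.comp continuous_fst).prodMk h1)

theorem near_pos {F : Filter ℕ} {s : ℕ → ℝ} {L : ℕ → (E2 →L[ℝ] E2)} {t : ℕ → E2}
    {L' : E2 →L[ℝ] E2} {t' : E2} (hs : Tendsto s F (𝓝 0)) (hL : Tendsto L F (𝓝 L'))
    (ht : Tendsto t F (𝓝 t')) {x : E2} (hx : 0 < Fk 0 (L' x + t')) :
    ∃ ρ > 0, ∀ᶠ n in F, ∀ y ∈ ball x ρ, 0 < Fk (s n) (L n y + t n) := by
  have h1 : Tendsto (fun n => (s n, L n, t n)) F (𝓝 ((0 : ℝ), L', t')) :=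
    hs.prodMk_nhds (hL.prodMk_nhds ht)
  have h2 : ∀ᶠ z in 𝓝 (((0 : ℝ), L', t'), x), 0 < Fk z.1.1 (z.1.2.1 z.2 + z.1.2.2) :=
    app_cont.continuousAt.eventually (lt_mem_nhds hx)
  rw [nhds_prod_eq, Filter.eventually_prod_iff] at h2
  obtain ⟨pa, hpa, pb, hpb, h3⟩ := h2
  obtain ⟨ρ, hρ, h4⟩ := Metric.eventually_nhds_iff_ball.1 hpb
  exact ⟨ρ, hρ, (h1.eventually hpa).mono fun n hn y hy => h3 hn (h4 y hy)⟩

theorem near_neg {F : Filter ℕ} {s : ℕ → ℝ} {L : ℕ → (E2 →L[ℝ] E2)} {t : ℕ → E2}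
    {L' : E2 →L[ℝ] E2} {t' : E2} (hs : Tendsto s F (𝓝 0)) (hL : Tendsto L F (𝓝 L'))
    (ht : Tendsto t F (𝓝 t')) {x : E2} (hx : Fk 0 (L' x + t') < 0) :
    ∀ᶠ n in F, Fk (s n) (L n x + t n) < 0 := by
  have h1 : Tendsto (fun n => ((s n, L n, t n), x)) F (𝓝 (((0 : ℝ), L', t'), x)) :=
    (hs.prodMk_nhds (hL.prodMk_nhds ht)).prodMk_nhds tendsto_const_nhds
  exact h1.eventually (app_cont.continuousAt.eventually (gt_mem_nhds hx))

theorem near_le {F : Filter ℕ} [F.NeBot] {s : ℕ → ℝ} {L : ℕ → (E2 →L[ℝ] E2)} {t : ℕ → E2}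
    {L' : E2 →L[ℝ] E2} {t' : E2} (hs : Tendsto s F (𝓝 0)) (hL : Tendsto L F (𝓝 L'))
    (ht : Tendsto t F (𝓝 t')) {x : ℕ → E2} {x' : E2} (hx : Tendsto x F (𝓝 x'))
    (hn : ∀ n, Fk (s n) (L n (x n) + t n) ≤ 0) : Fk 0 (L' x' + t') ≤ 0 := by
  have h1 : Tendsto (fun n => ((s n, L n, t n), x n)) F (𝓝 (((0 : ℝ), L', t'), x')) :=
    (hs.prodMk_nhds (hL.prodMk_nhds ht)).prodMk_nhds hx
  exact le_of_tendsto (app_cont.continuousAt.tendsto.comp h1) (Eventually.of_forall hn)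

/-- **Compactness for a fixed number of bodies.** -/
theorem cpt_core (H : Str) (m : ℕ) (T₀ : ℝ) (i0 : Fin m) (j : Fin 3 → Fin m)
    (hj : Function.Injective j) (hj0 : ∀ a, j a ≠ i0) :
    ∃ c > 0, ∀ s, 0 < s → s < c → ∀ (L : Fin m → (E2 →L[ℝ] E2)) (t : Fin m → E2),
      (∀ i x, ‖L i x‖ = ‖x‖) → (∀ i, ‖t i‖ ≤ T₀) →
      (∀ i k, i ≠ k → ∀ x, Fk s (L i x + t i) < 0 → Fk s (L k x + t k) < 0 → False) →
      (∀ x, L i0 x + t i0 = x) →
      (∀ a, ∃ x, Fk s (L (j a) x + t (j a)) ≤ 0 ∧ ∃ p, |p| ≤ 5 / 4 ∧ dist x (pt p 0) < c) →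
      c ≤ volume.real (ball (0 : E2) 2 \ ⋃ i, {x | Fk s (L i x + t i) ≤ 0}) := by
  by_contra hcon
  push Not at hcon
  have hpos : ∀ n : ℕ, (0 : ℝ) < 1 / ((n : ℝ) + 1) := fun n => by positivity
  choose s hs0 hs1 L t hiso ht hdis hid hnear hvoid using
    fun n : ℕ => hcon (1 / ((n : ℝ) + 1)) (hpos n)
  choose x hxK p hp hdist using hnear
  set F : Filter ℕ := (hyperfilter ℕ : Filter ℕ) with hF
  have hle : F ≤ atTop := Nat.hyperfilter_le_atTop
  have hprop : ProperSpace (E2 →L[ℝ] E2) := FiniteDimensional.proper ℝ _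
  have hLn : ∀ n i, ‖L n i‖ ≤ 1 := fun n i =>
    ContinuousLinearMap.opNorm_le_bound _ zero_le_one fun x => by rw [hiso n i x, one_mul]
  have hLlim : ∀ i, ∃ L', Tendsto (fun n => L n i) F (𝓝 L') := by
    intro i
    obtain ⟨L', _, hL'⟩ := (isCompact_closedBall (0 : E2 →L[ℝ] E2) 1).ultrafilter_le_nhds
      (Ultrafilter.map (fun n => L n i) (hyperfilter ℕ)) (by
        rw [le_principal_iff, Ultrafilter.coe_map, Filter.mem_map]
        exact Filter.univ_mem' (fun n => by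
          show L n i ∈ closedBall (0 : E2 →L[ℝ] E2) 1
          rw [mem_closedBall_zero_iff]
          exact hLn n i))
    exact ⟨L', hL'⟩
  have htlim : ∀ i, ∃ t', Tendsto (fun n => t n i) F (𝓝 t') := by
    intro i
    obtain ⟨t', _, ht'⟩ := (isCompact_closedBall (0 : E2) T₀).ultrafilter_le_nhds
      (Ultrafilter.map (fun n => t n i) (hyperfilter ℕ)) (by
        rw [le_principal_iff, Ultrafilter.coe_map, Filter.mem_map]
        exact Filter.univ_mem' (fun n => by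
          show t n i ∈ closedBall (0 : E2) T₀
          rw [mem_closedBall_zero_iff]
          exact ht n i))
    exact ⟨t', ht'⟩
  have hplim : ∀ a, ∃ p' : ℝ, |p'| ≤ 5 / 4 ∧ Tendsto (fun n => p n a) F (𝓝 p') := by
    intro a
    obtain ⟨p', hp', hlim⟩ := (isCompact_Icc (a := (-(5 / 4) : ℝ)) (b := 5 / 4)).ultrafilter_le_nhds
      (Ultrafilter.map (fun n => p n a) (hyperfilter ℕ)) (by
        rw [le_principal_iff, Ultrafilter.coe_map, Filter.mem_map]
        exact Filter.univ_mem' (fun n => by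
          show p n a ∈ Icc (-(5 / 4) : ℝ) (5 / 4)
          exact abs_le.1 (hp n a)))
    exact ⟨p', abs_le.2 hp', hlim⟩
  choose L' hL' using hLlim
  choose t' ht' using htlim
  choose p' hp' hp'lim using hplim
  have hslim : Tendsto s F (𝓝 0) :=
    squeeze_zero (fun n => (hs0 n).le) (fun n => (hs1 n).le)
      (tendsto_one_div_add_atTop_nhds_zero_nat.mono_left hle)
  have hdlim : Tendsto (fun n : ℕ => 1 / ((n : ℝ) + 1)) F (𝓝 0) :=
    tendsto_one_div_add_atTop_nhds_zero_nat.mono_left hle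
  have hiso' : ∀ i x, ‖L' i x‖ = ‖x‖ := by
    intro i y
    have h1 : Tendsto (fun n => ‖L n i y‖) F (𝓝 ‖L' i y‖) :=
      (((ContinuousLinearMap.apply ℝ E2 y).continuous.tendsto _).comp (hL' i)).norm
    simp only [hiso] at h1
    exact (tendsto_nhds_unique h1 tendsto_const_nhds)
  choose ψ hψ using fun i => exists_isom (hiso' i) (t' i)
  have hxlim : ∀ a, Tendsto (fun n => x n a) F (𝓝 (pt (p' a) 0)) := by
    intro a
    have h1 : Tendsto (fun n => pt (p n a) 0) F (𝓝 (pt (p' a) 0)) := by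
      have hc : Continuous (fun q : ℝ => pt q 0) := by
        unfold pt
        refine (PiLp.continuous_toLp 2 (fun _ : Fin 2 => ℝ)).comp ?_
        refine continuous_pi fun i => ?_
        fin_cases i
        · exact continuous_id
        · exact continuous_const
      exact (hc.tendsto _).comp (hp'lim a)
    rw [tendsto_iff_dist_tendsto_zero] at h1 ⊢
    have h2 : Tendsto (fun n : ℕ => 1 / ((n : ℝ) + 1) + dist (pt (p n a) 0) (pt (p' a) 0)) F
        (𝓝 (0 + 0)) := hdlim.add h1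
    rw [add_zero] at h2
    refine squeeze_zero (fun n => dist_nonneg) (fun n => ?_) h2
    exact (dist_triangle _ (pt (p n a) 0) _).trans (by
      have := hdist n a
      linarith)
  refine H m ψ ?_ ?_ i0 ?_ j hj hj0 ?_
  · intro y hy
    by_contra hc
    push Not at hc
    have hc' : ∀ i, 0 < Fk 0 (L' i y + t' i) := by
      intro i
      have := hc i
      rw [mem_K_iff, hψ, not_le] at this
      exact this
    choose r hr hev using fun i => near_pos hslim (hL' i) (ht' i) (hc' i)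
    obtain ⟨ρ, hρ, hρ0, hρr⟩ := GSeq_rho r hr (show (0 : ℝ) < 2 - ‖y‖ by
      rw [mem_ball_zero_iff] at hy
      linarith)
    have h1 : ∀ᶠ n : ℕ in F, volume.real (ball y ρ) ≤ 1 / ((n : ℝ) + 1) := by
      filter_upwards [eventually_all.2 hev] with n hn
      refine le_trans ?_ (hvoid n).le
      refine measureReal_mono ?_ ?_
      · intro z hz
        refine ⟨?_, ?_⟩
        · rw [mem_ball_zero_iff]
          rw [mem_ball, dist_eq_norm] at hz
          calc ‖z‖ = ‖(z - y) + y‖ := by rw [sub_add_cancel]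
            _ ≤ ‖z - y‖ + ‖y‖ := norm_add_le _ _
            _ < 2 := by linarith
        · rw [mem_iUnion]
          rintro ⟨i, hi⟩
          exact absurd (hn i z (ball_subset_ball (hρr i) hz)) (not_lt.2 hi)
      · exact ((measure_mono sdiff_subset).trans_lt measure_ball_lt_top).ne
    have h2 : volume.real (ball y ρ) ≤ 0 := ge_of_tendsto hdlim h1
    have h3 : 0 < volume.real (ball y ρ) := by
      rw [Measure.real, ENNReal.toReal_pos_iff]
      exact ⟨measure_ball_pos volume y hρ, measure_ball_lt_top⟩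
    linarith
  · intro i k hik y h1 h2
    rw [hψ] at h1 h2
    obtain ⟨n, hn1, hn2⟩ := ((near_neg hslim (hL' i) (ht' i) h1).and
      (near_neg hslim (hL' k) (ht' k) h2)).exists
    exact hdis n i k hik y hn1 hn2
  · intro y
    rw [hψ]
    have h1 : Tendsto (fun n => L n i0 y + t n i0) F (𝓝 (L' i0 y + t' i0)) :=
      (((ContinuousLinearMap.apply ℝ E2 y).continuous.tendsto _).comp (hL' i0)).add (ht' i0)
    simp only [hid] at h1
    exact (tendsto_nhds_unique h1 tendsto_const_nhds)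
  · intro a
    refine ⟨p' a, hp' a, ?_⟩
    rw [mem_K_iff, hψ]
    exact near_le hslim (hL' _) (ht' _) (hxlim a) (fun n => hxK n a)

end Pool.Cyl
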